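import Mathlib

/-!
The example: an invertible element of `H^∞` of modulus one on the lower half of the unit circle and
of modulus `a` on the upper half.
-/

set_option autoImplicit false

open Complex ComplexConjugate Metric Filter Topology Set

namespace Pool.Agent.Y387.UQ

/-- `(1 + z) / (1 - z)` -/
noncomputable def V (z : ℂ) : ℂ := (1 + z) / (1 - z)

/-- The example, for `t > 0` (with `a = exp (-π t)`). -/
noncomputable def E (t : ℝ) (z : ℂ) : ℂ := Complex.exp (t * (-(Real.pi / 2 : ℝ) + I * Complex.log (V z)))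

lemma E_ne_zero (t : ℝ) (z : ℂ) : E t z ≠ 0 := Complex.exp_ne_zero _

lemma norm_E (t : ℝ) (z : ℂ) : ‖E t z‖ = Real.exp (-(t * (Real.pi / 2 + (V z).arg))) := by
  unfold E
  rw [Complex.norm_exp]
  congr 1
  rw [Complex.re_ofReal_mul]
  simp only [add_re, neg_re, ofReal_re, mul_re, I_re, zero_mul, I_im, one_mul, zero_sub,
    Complex.log_im]
  ring

lemma V_re (z : ℂ) : (V z).re = (1 - ‖z‖ ^ 2) / normSq (1 - z) := by
  unfold V
  rw [Complex.div_re, ← Complex.normSq_eq_norm_sq, Complex.normSq_apply z, ← add_div]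
  congr 1
  simp only [add_re, one_re, sub_re, add_im, one_im, sub_im, zero_add, zero_sub]
  ring

lemma V_im (z : ℂ) : (V z).im = 2 * z.im / normSq (1 - z) := by
  unfold V
  rw [Complex.div_im, ← sub_div]
  congr 1
  simp only [add_re, one_re, sub_re, add_im, one_im, sub_im, zero_add, zero_sub]
  ring

lemma one_sub_pos {z : ℂ} (hz : z ≠ 1) : 0 < normSq (1 - z) :=
  Complex.normSq_pos.2 (sub_ne_zero.2 (Ne.symm hz))

lemma V_re_pos {z : ℂ} (hz : ‖z‖ < 1) : 0 < (V z).re := by
  rw [V_re]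
  apply div_pos
  · nlinarith [norm_nonneg z]
  · apply one_sub_pos
    rintro rfl
    rw [norm_one] at hz
    exact lt_irrefl _ hz

lemma arg_bound {z : ℂ} (hz : ‖z‖ < 1) : |(V z).arg| < Real.pi / 2 :=
  Complex.abs_arg_lt_pi_div_two_iff.2 (Or.inl (V_re_pos hz))

lemma E_lt_one {t : ℝ} (ht : 0 < t) {z : ℂ} (hz : ‖z‖ < 1) : ‖E t z‖ < 1 := by
  rw [norm_E]
  rw [← Real.exp_zero]
  apply Real.exp_lt_exp.2
  have := (abs_lt.1 (arg_bound hz)).1
  have : 0 < Real.pi / 2 + (V z).arg := by linarith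
  have := mul_pos ht this
  linarith

lemma lt_E {t : ℝ} (ht : 0 < t) {z : ℂ} (hz : ‖z‖ < 1) : Real.exp (-(t * Real.pi)) < ‖E t z‖ := by
  rw [norm_E]
  apply Real.exp_lt_exp.2
  have h1 := (abs_lt.1 (arg_bound hz)).2
  have h2 : Real.pi / 2 + (V z).arg < Real.pi := by linarith
  have := mul_lt_mul_of_pos_left h2 ht
  linarith

lemma V_slit_disc {z : ℂ} (hz : ‖z‖ < 1) : V z ∈ slitPlane := Or.inl (V_re_pos hz)

lemma V_slit_im {z : ℂ} (hz : z.im ≠ 0) : V z ∈ slitPlane := by
  right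
  rw [V_im]
  apply div_ne_zero (mul_ne_zero two_ne_zero hz)
  apply ne_of_gt
  apply one_sub_pos
  rintro rfl
  simp at hz

lemma E_diffAt (t : ℝ) {z : ℂ} (h1 : z ≠ 1) (h2 : V z ∈ slitPlane) : DifferentiableAt ℂ (E t) z := by
  have h3 : DifferentiableAt ℂ V z := by
    unfold V
    apply DifferentiableAt.div (by fun_prop) (by fun_prop)
    exact sub_ne_zero.2 (Ne.symm h1)
  unfold E
  apply DifferentiableAt.cexp
  apply DifferentiableAt.const_mul
  apply DifferentiableAt.const_add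
  apply DifferentiableAt.const_mul
  exact h3.clog h2

lemma E_diff (t : ℝ) : DifferentiableOn ℂ (E t) (ball 0 1 ∪ {z | z.im < 0}) := by
  intro z hz
  apply DifferentiableAt.differentiableWithinAt
  rcases hz with hz | hz
  · have hz' : ‖z‖ < 1 := by simpa using hz
    apply E_diffAt t _ (V_slit_disc hz')
    rintro rfl
    rw [norm_one] at hz'
    exact lt_irrefl _ hz'
  · have hz' : z.im < 0 := hz
    apply E_diffAt t _ (V_slit_im hz'.ne)
    rintro rfl
    simp at hz'

lemma arg_lower {z : ℂ} (hz : ‖z‖ = 1) (him : z.im < 0) : (V z).arg = -(Real.pi / 2) := by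
  rw [Complex.arg_eq_neg_pi_div_two_iff]
  constructor
  · rw [V_re, hz]
    simp
  · rw [V_im]
    apply div_neg_of_neg_of_pos (by linarith)
    apply one_sub_pos
    rintro rfl
    simp at him

lemma arg_upper {z : ℂ} (hz : ‖z‖ = 1) (him : 0 < z.im) : (V z).arg = Real.pi / 2 := by
  rw [Complex.arg_eq_pi_div_two_iff]
  constructor
  · rw [V_re, hz]
    simp
  · rw [V_im]
    apply div_pos (by linarith)
    apply one_sub_pos
    rintro rfl
    simp at him

lemma E_lower (t : ℝ) {z : ℂ} (hz : ‖z‖ = 1) (him : z.im < 0) : ‖E t z‖ = 1 := by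
  rw [norm_E, arg_lower hz him]
  simp

lemma E_upper (t : ℝ) {z : ℂ} (hz : ‖z‖ = 1) (him : 0 < z.im) :
    ‖E t z‖ = Real.exp (-(t * Real.pi)) := by
  rw [norm_E, arg_upper hz him]
  congr 2
  ring

lemma E_cont (t : ℝ) {z : ℂ} (hz : z.im ≠ 0) : ContinuousAt (E t) z := by
  apply (E_diffAt t _ (V_slit_im hz)).continuousAt
  rintro rfl
  simp at hz

end Pool.Agent.Y387.UQ
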