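import Pool.Agent.Y387.UQ.Uniq

/-!
Uniqueness for sequences with a cluster point on an arc where the function is unimodular.
-/

set_option autoImplicit false

open Complex ComplexConjugate Metric Filter Topology Set

namespace Pool.Agent.Y387.UQ

variable {g : ℂ → ℂ} {ζ : ℂ}

lemma uniq {R : ℝ} (H : Loc g ζ R) (hgD : DifferentiableOn ℂ g (ball 0 1)) (z : ℕ → ℂ)
    (hinj : Function.Injective z) (hzD : ∀ n, ‖z n‖ < 1)
    (hcl : {n | z n ∈ ball ζ (R / 36)}.Infinite) {h : ℂ → ℂ}
    (hh : DifferentiableOn ℂ h (ball 0 1)) (hb : ∀ y ∈ ball (0:ℂ) 1, ‖h y‖ ≤ 1)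
    (hgz : ∀ n, h (z n) = g (z n)) : Set.EqOn h g (ball 0 1) := by
  have h1 : ∀ x0 ∈ ball (0:ℂ) 1 ∩ ball ζ (R / 36), h x0 = g x0 := by
    rintro x0 ⟨hx1, hx2⟩
    by_cases hr : x0 ∈ Set.range z
    · obtain ⟨n, rfl⟩ := hr
      exact hgz n
    · set φ := hcl.natEmbedding with hφ
      set x : ℕ → ℂ := fun i => if i = 0 then x0 else z (φ (i - 1)) with hx
      have hxs : ∀ i, x (i + 1) = z (φ i) := by
        intro i
        simp [hx]
      have hx0 : x 0 = x0 := by simp [hx]
      have := agree H x (by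
        intro i
        cases i with
        | zero => rw [hx0]; exact hx2
        | succ i => rw [hxs]; exact (φ i).2) (by
        intro i
        cases i with
        | zero => rw [hx0]; simpa using hx1
        | succ i => rw [hxs]; exact hzD _) (by
        intro i j hij
        cases i with
        | zero =>
          cases j with
          | zero => rfl
          | succ j =>
            rw [hx0, hxs] at hij
            exact absurd ⟨_, hij.symm⟩ hr
        | succ i =>
          cases j with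
          | zero =>
            rw [hx0, hxs] at hij
            exact absurd ⟨_, hij⟩ hr
          | succ j =>
            rw [hxs, hxs] at hij
            have h2 := φ.injective (Subtype.ext (hinj hij))
            rw [h2]) hh hb (by
        intro i
        rw [hxs]
        exact hgz _)
      rwa [hx0] at this
  obtain ⟨n, hn⟩ := hcl.nonempty
  have hmem : z n ∈ ball (0:ℂ) 1 := by simpa using hzD n
  apply (hh.analyticOnNhd isOpen_ball).eqOn_of_preconnected_of_eventuallyEq
    (hgD.analyticOnNhd isOpen_ball) (convex_ball 0 1).isPreconnected hmem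
  filter_upwards [(isOpen_ball.inter isOpen_ball).mem_nhds ⟨hmem, hn⟩] with y hy
  exact h1 y hy

/-- Reflection. -/
lemma exists_loc (hζ : ‖ζ‖ = 1) {r : ℝ} (hr : 0 < r) (hg : DifferentiableOn ℂ g (ball ζ r))
    (hu : ∀ x ∈ ball ζ r, ‖x‖ = 1 → ‖g x‖ = 1) : ∃ R : ℝ, Loc g ζ R := by
  have hmem : ζ ∈ ball ζ r := mem_ball_self hr
  have hc : ContinuousAt g ζ := (hg.differentiableAt (isOpen_ball.mem_nhds hmem)).continuousAt
  have h1 : ∀ᶠ x in 𝓝 ζ, 1 / 2 < ‖g x‖ ∧ ‖g x‖ < 2 := by
    have h2 := hu ζ hmem hζ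
    have a := hc.norm.eventually (lt_mem_nhds (show 1 / 2 < ‖g ζ‖ by rw [h2]; norm_num))
    have b := hc.norm.eventually (gt_mem_nhds (show ‖g ζ‖ < 2 by rw [h2]; norm_num))
    filter_upwards [a, b] with x ha hb
    exact ⟨ha, hb⟩
  obtain ⟨ε, hε, hε2⟩ := Metric.eventually_nhds_iff_ball.1 h1
  set R := min (min r ε) (1 / 2) with hRdef
  have hR : 0 < R := by
    rw [hRdef]
    positivity
  have hRr : R ≤ r := (min_le_left _ _).trans (min_le_left _ _)
  have hRε : R ≤ ε := (min_le_left _ _).trans (min_le_right _ _)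
  have hR2 : R ≤ 1 / 2 := min_le_right _ _
  refine ⟨R, hR, hR2, hζ, hg.mono (ball_subset_ball hRr),
    fun x hx => (hε2 x (ball_subset_ball hRε hx)).1.le,
    fun x hx => (hε2 x (ball_subset_ball hRε hx)).2.le, ?_⟩
  -- the reflection identity
  set f1 : ℂ → ℂ := fun w => g w * (conj ∘ g ∘ conj) w⁻¹ with hf1
  have hwne : ∀ w ∈ ball ζ (R / 2), w ≠ 0 := by
    intro w hw h0
    have := norm_ge (by linarith) hζ hw
    rw [h0, norm_zero] at this
    linarith
  have hf1d : DifferentiableOn ℂ f1 (ball ζ (R / 2)) := by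
    intro w hw
    apply DifferentiableAt.differentiableWithinAt
    have hw0 := hwne w hw
    apply DifferentiableAt.mul
    · exact hg.differentiableAt (isOpen_ball.mem_nhds (ball_subset_ball (by linarith) hw))
    · have e1 := inv_mem (by linarith) hζ hw
      have e2 : (conj w)⁻¹ ∈ ball ζ r := ball_subset_ball (by linarith) e1
      have e3 : DifferentiableAt ℂ g (conj w⁻¹) := by
        rw [map_inv₀]
        exact hg.differentiableAt (isOpen_ball.mem_nhds e2)
      have e4 : DifferentiableAt ℂ (conj ∘ g ∘ conj) w⁻¹ := differentiableAt_conj_conj_iff.2 e3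
      exact e4.comp w (differentiableAt_inv hw0)
  have hcirc : ∀ w ∈ ball ζ (R / 2), ‖w‖ = 1 → f1 w = 1 := by
    intro w hw hw1
    have e1 : w * conj w = 1 := by
      rw [Complex.mul_conj, Complex.normSq_eq_norm_sq, hw1]
      simp
    have e2 : conj w⁻¹ = w := by
      have h3 : conj w = w⁻¹ := eq_inv_of_mul_eq_one_right e1
      rw [← h3, Complex.conj_conj]
    simp only [hf1, Function.comp_apply]
    rw [e2, Complex.mul_conj, Complex.normSq_eq_norm_sq,
      hu w (ball_subset_ball (by linarith) hw) hw1]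
    simp
  have hmem2 : ζ ∈ ball ζ (R / 2) := mem_ball_self (by linarith)
  have hζ0 : ζ ≠ 0 := hwne ζ hmem2
  have hdenz : ∀ t : ℝ, (1 - I * t : ℂ) ≠ 0 := by
    intro t h
    have := congrArg Complex.re h
    simp at this
  have hT : Tendsto (fun t : ℝ => ζ * ((1 + I * t) / (1 - I * t))) (𝓝[≠] 0) (𝓝[≠] ζ) := by
    apply tendsto_nhdsWithin_iff.2
    constructor
    · have hcont : ContinuousAt (fun t : ℝ => ζ * ((1 + I * t) / (1 - I * t))) 0 := by
        apply ContinuousAt.mul continuousAt_const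
        apply ContinuousAt.div (by fun_prop) (by fun_prop)
        exact hdenz 0
      have := hcont.tendsto
      simp only [ofReal_zero, mul_zero, add_zero, sub_zero, div_one, mul_one] at this
      exact this.mono_left nhdsWithin_le_nhds
    · filter_upwards [self_mem_nhdsWithin] with t ht h
      apply ht
      have h4 : (1 + I * t) / (1 - I * t) = (1 : ℂ) := by
        have : ζ * ((1 + I * t) / (1 - I * t)) = ζ * 1 := by rw [mul_one]; exact h
        exact mul_left_cancel₀ hζ0 this
      rw [div_eq_one_iff_eq (hdenz t)] at h4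
      have := congrArg Complex.im h4
      simp at this
      rw [Set.mem_singleton_iff]
      linarith
  have hfreq : ∃ᶠ w in 𝓝[≠] ζ, f1 w = (fun _ => (1 : ℂ)) w := by
    apply hT.frequently
    apply Eventually.frequently
    have h5 : ∀ᶠ t : ℝ in 𝓝[≠] (0:ℝ), ζ * ((1 + I * t) / (1 - I * t)) ∈ ball ζ (R / 2) :=
      (hT.mono_right nhdsWithin_le_nhds).eventually (isOpen_ball.mem_nhds hmem2)
    filter_upwards [h5] with t ht
    apply hcirc _ ht
    rw [norm_mul, hζ, one_mul, norm_div]
    have h6 : ‖(1 + I * t : ℂ)‖ = ‖(1 - I * t : ℂ)‖ := by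
      rw [← RCLike.norm_conj (1 + I * t : ℂ)]
      congr 1
      simp [sub_eq_add_neg]
    rw [h6, div_self]
    exact norm_ne_zero_iff.2 (hdenz t)
  have heq := (hf1d.analyticOnNhd isOpen_ball).eqOn_of_preconnected_of_frequently_eq
    (analyticOnNhd_const) (convex_ball ζ (R / 2)).isPreconnected hmem2 hfreq
  intro w hw
  have h7 := congrArg conj (heq hw)
  simp only [hf1, Function.comp_apply, map_mul, Complex.conj_conj, map_one] at h7
  rw [map_inv₀] at h7
  rw [mul_comm]
  exact h7

/-- Main uniqueness theorem. -/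
theorem unique (hζ : ‖ζ‖ = 1) {r : ℝ} (hr : 0 < r)
    (hg : DifferentiableOn ℂ g (ball 0 1 ∪ ball ζ r))
    (hu : ∀ x ∈ ball ζ r, ‖x‖ = 1 → ‖g x‖ = 1) (z : ℕ → ℂ)
    (hinj : Function.Injective z) (hzD : ∀ n, ‖z n‖ < 1)
    (hcl : ∀ ε : ℝ, 0 < ε → {n | ‖z n - ζ‖ < ε}.Infinite) {h : ℂ → ℂ}
    (hh : DifferentiableOn ℂ h (ball 0 1)) (hb : ∀ y ∈ ball (0:ℂ) 1, ‖h y‖ ≤ 1)
    (hgz : ∀ n, h (z n) = g (z n)) : Set.EqOn h g (ball 0 1) := by
  obtain ⟨R, H⟩ := exists_loc hζ hr (hg.mono subset_union_right) hu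
  apply uniq H (hg.mono subset_union_left) z hinj hzD _ hh hb hgz
  have := hcl (R / 36) (by have := H.pos; positivity)
  refine this.mono ?_
  intro n hn
  rw [Set.mem_ofPred_eq] at hn ⊢
  rw [mem_ball, dist_eq_norm]
  exact hn

end Pool.Agent.Y387.UQ
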