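import Mathlib

/-!
Newton interpolation at arbitrary distinct points of a small disc: the value at one more point of
the small disc is approximated, uniformly for all bounded analytic functions on a larger disc, by
a fixed linear combination of the values at the given points.
-/

set_option autoImplicit false

open Complex ComplexConjugate Metric Filter Topology Set

namespace Pool.Agent.Y387.UQ

/-- The divided difference is bounded. -/
lemma slope_bound {F : ℂ → ℂ} {ζ c : ℂ} {R s B : ℝ} (hs : 0 < s)
    (hF : DifferentiableOn ℂ F (ball ζ R)) (hB : ∀ x ∈ ball ζ R, ‖F x‖ ≤ B)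
    (hc : dist c ζ ≤ R - s) (hcR : c ∈ ball ζ R) {x : ℂ} (hx : x ∈ ball ζ R) :
    ‖dslope F c x‖ ≤ 2 * B / s := by
  have hsub : ball c s ⊆ ball ζ R := by
    apply ball_subset_ball'
    linarith
  have hdiff : ∀ y ∈ ball ζ R, ‖F y - F c‖ ≤ 2 * B := by
    intro y hy
    have := norm_sub_le (F y) (F c)
    have h1 := hB y hy
    have h2 := hB c hcR
    linarith
  by_cases hxs : x ∈ ball c s
  · apply Complex.norm_dslope_le_div_of_mapsTo_ball (hF.mono hsub) _ hxs
    intro y hy
    rw [mem_closedBall, dist_eq_norm]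
    exact hdiff y (hsub hy)
  · have hne : x ≠ c := by
      rintro rfl
      exact hxs (mem_ball_self hs)
    rw [dslope_of_ne _ hne, slope_def_module, norm_smul, norm_inv]
    rw [mem_ball, not_lt, dist_eq_norm] at hxs
    rw [← div_eq_inv_mul]
    have hB0 : 0 ≤ 2 * B := (norm_nonneg _).trans (hdiff x hx)
    have h3 := hdiff x hx
    gcongr

lemma slope_diff {F : ℂ → ℂ} {ζ c : ℂ} {R : ℝ} (hF : DifferentiableOn ℂ F (ball ζ R))
    (hcR : c ∈ ball ζ R) : DifferentiableOn ℂ (dslope F c) (ball ζ R) :=
  (differentiableOn_dslope (isOpen_ball.mem_nhds hcR)).2 hF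

/-- Newton interpolation. -/
lemma newton {ζ : ℂ} {R ρ : ℝ} (hρ : 0 < ρ) (hR : ρ < R) (x : ℕ → ℂ) (hx : ∀ i, x i ∈ ball ζ ρ)
    (hinj : Function.Injective x) (m : ℕ) :
    ∃ t : ℕ → ℂ, t 0 = 1 ∧ ∀ (F : ℂ → ℂ) (B : ℝ), DifferentiableOn ℂ F (ball ζ R) →
      (∀ y ∈ ball ζ R, ‖F y‖ ≤ B) →
      ‖∑ i ∈ Finset.range (m + 1), t i * F (x i)‖ ≤ B * (4 * ρ / (R - ρ)) ^ m := by
  have hRρ : 0 < R - ρ := by linarith
  have hxR : ∀ i, x i ∈ ball ζ R := fun i => ball_subset_ball hR.le (hx i)
  induction m with
  | zero =>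
    refine ⟨fun _ => 1, rfl, fun F B _ hB => ?_⟩
    simpa using hB (x 0) (hxR 0)
  | succ m ih =>
    obtain ⟨t, ht0, ht⟩ := ih
    set c := x (m + 1) with hc
    have hne : ∀ i ∈ Finset.range (m + 1), x i ≠ c := by
      intro i hi h
      rw [Finset.mem_range] at hi
      have := hinj h
      omega
    set u : ℕ → ℂ := fun i => if i = m + 1 then
      - ∑ j ∈ Finset.range (m + 1), (x 0 - c) * t j / (x j - c) else (x 0 - c) * t i / (x i - c)
      with hu
    refine ⟨u, ?_, ?_⟩
    · have h0 : x 0 - c ≠ 0 := sub_ne_zero.2 (hne 0 (by simp))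
      simp only [hu]
      rw [if_neg (by omega), ht0, mul_one, div_self h0]
    · intro F B hF hB
      have h1 := ht (dslope F c) (2 * B / (R - ρ)) (slope_diff hF (hxR _)) (by
        intro y hy
        apply slope_bound hRρ hF hB _ (hxR _) hy
        have := hx (m + 1)
        rw [mem_ball] at this
        linarith)
      have h2 : ∑ i ∈ Finset.range (m + 1 + 1), u i * F (x i)
          = (x 0 - c) * ∑ i ∈ Finset.range (m + 1), t i * dslope F c (x i) := by
        rw [Finset.sum_range_succ]
        have e1 : u (m + 1) = - ∑ j ∈ Finset.range (m + 1), (x 0 - c) * t j / (x j - c) := by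
          simp [hu]
        rw [e1, ← hc, neg_mul, ← sub_eq_add_neg, Finset.sum_mul, Finset.mul_sum,
          ← Finset.sum_sub_distrib]
        apply Finset.sum_congr rfl
        intro i hi
        have hi' := hne i hi
        have e2 : u i = (x 0 - c) * t i / (x i - c) := by
          simp only [hu]
          rw [Finset.mem_range] at hi
          rw [if_neg (by omega)]
        rw [e2, dslope_of_ne _ hi', slope_def_field]
        have : x i - c ≠ 0 := sub_ne_zero.2 hi'
        field_simp
      rw [h2, norm_mul]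
      have h3 : ‖x 0 - c‖ ≤ 2 * ρ := by
        have a := hx 0
        have b := hx (m + 1)
        rw [mem_ball, dist_eq_norm] at a b
        have : x 0 - c = (x 0 - ζ) - (x (m + 1) - ζ) := by rw [hc]; ring
        rw [this]
        have := norm_sub_le (x 0 - ζ) (x (m + 1) - ζ)
        linarith
      calc ‖x 0 - c‖ * ‖∑ i ∈ Finset.range (m + 1), t i * dslope F c (x i)‖
          ≤ (2 * ρ) * (2 * B / (R - ρ) * (4 * ρ / (R - ρ)) ^ m) := by
            apply mul_le_mul h3 h1 (norm_nonneg _) (by positivity)
        _ = B * (4 * ρ / (R - ρ)) ^ (m + 1) := by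
            rw [pow_succ]
            ring

end Pool.Agent.Y387.UQ
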