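import Pool.Agent.Helper897.PickIneq
import Pool.Agent.Y387.UQ.Newton

/-!
Uniqueness in the unit ball of `H^∞`: a function which is analytic and unimodular near a boundary
point is determined by its values at any infinitely many points close to that point.
-/

set_option autoImplicit false

open Complex ComplexConjugate Metric Filter Topology Set

namespace Pool.Agent.Y387.UQ

/-- Local data at a boundary point `ζ`. -/
structure Loc (g : ℂ → ℂ) (ζ : ℂ) (R : ℝ) : Prop where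
  pos : 0 < R
  le : R ≤ 1 / 2
  unit : ‖ζ‖ = 1
  diff : DifferentiableOn ℂ g (ball ζ R)
  lo : ∀ x ∈ ball ζ R, 1 / 2 ≤ ‖g x‖
  hi : ∀ x ∈ ball ζ R, ‖g x‖ ≤ 2
  refl : ∀ w ∈ ball ζ (R / 2), g (conj w)⁻¹ * conj (g w) = 1

/-- The kernel function. -/
noncomputable def FF (g : ℂ → ℂ) (w z : ℂ) : ℂ :=
  ((conj w)⁻¹ / g (conj w)⁻¹) * dslope g (conj w)⁻¹ z

lemma norm_ge {ζ w : ℂ} {R : ℝ} (hR : R ≤ 1 / 2) (hζ : ‖ζ‖ = 1) (hw : w ∈ ball ζ R) :
    1 / 2 ≤ ‖w‖ := by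
  rw [mem_ball, dist_eq_norm] at hw
  have h1 : ζ = w - (w - ζ) := by ring
  have h2 := norm_sub_le w (w - ζ)
  rw [← h1, hζ] at h2
  linarith

lemma norm_le_two {ζ w : ℂ} {R : ℝ} (hR : R ≤ 1 / 2) (hζ : ‖ζ‖ = 1) (hw : w ∈ ball ζ R) :
    ‖w‖ ≤ 3 / 2 := by
  rw [mem_ball, dist_eq_norm] at hw
  have h1 : w = ζ + (w - ζ) := by ring
  have h2 := norm_add_le ζ (w - ζ)
  rw [← h1, hζ] at h2
  linarith

lemma inv_mem {ζ w : ℂ} {s : ℝ} (hs : s ≤ 1 / 2) (hζ : ‖ζ‖ = 1) (hw : w ∈ ball ζ s) :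
    (conj w)⁻¹ ∈ ball ζ (2 * s) := by
  have h1 := norm_ge hs hζ hw
  have hw0 : w ≠ 0 := by
    rintro rfl
    rw [norm_zero] at h1
    linarith
  have hcw : conj w ≠ 0 := (map_ne_zero _).2 hw0
  rw [mem_ball, dist_eq_norm] at hw ⊢
  have h2 : ζ * conj ζ = 1 := by
    rw [Complex.mul_conj, Complex.normSq_eq_norm_sq, hζ]
    simp
  have h3 : (conj w)⁻¹ - ζ = -(ζ * conj (w - ζ)) / conj w := by
    rw [map_sub, eq_div_iff hcw, sub_mul, inv_mul_cancel₀ hcw]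
    linear_combination -h2
  rw [h3, norm_div, norm_neg, norm_mul, hζ, RCLike.norm_conj, RCLike.norm_conj, one_mul,
    div_lt_iff₀ (by linarith)]
  have hs0 : 0 < s := lt_of_le_of_lt (norm_nonneg _) hw
  nlinarith

variable {g : ℂ → ℂ} {ζ : ℂ} {R : ℝ}

lemma FF_diff (H : Loc g ζ R) {w : ℂ} (hw : w ∈ ball ζ (R / 4)) :
    DifferentiableOn ℂ (FF g w) (ball ζ R) := by
  have h1 : (conj w)⁻¹ ∈ ball ζ R := by
    have := inv_mem (by have := H.le; linarith [H.pos]) H.unit hw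
    exact ball_subset_ball (by linarith [H.pos]) this
  exact (slope_diff H.diff h1).const_mul _

lemma FF_bound (H : Loc g ζ R) {w z : ℂ} (hw : w ∈ ball ζ (R / 4)) (hz : z ∈ ball ζ R) :
    ‖FF g w z‖ ≤ 32 / R := by
  have hR := H.pos
  have h0 := inv_mem (by have := H.le; linarith [H.pos]) H.unit hw
  have h1 : (conj w)⁻¹ ∈ ball ζ R := ball_subset_ball (by linarith) h0
  have h2 := slope_bound (s := R / 2) (by linarith) H.diff H.hi (by
    rw [mem_ball] at h0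
    linarith) h1 hz
  have h3 := H.lo _ h1
  have h4 : ‖(conj w)⁻¹‖ ≤ 3 / 2 := norm_le_two H.le H.unit h1
  unfold FF
  rw [norm_mul, norm_div]
  have h5 : ‖(conj w)⁻¹‖ / ‖g (conj w)⁻¹‖ ≤ 4 := by
    rw [div_le_iff₀ (by linarith)]
    linarith
  calc ‖(conj w)⁻¹‖ / ‖g (conj w)⁻¹‖ * ‖dslope g (conj w)⁻¹ z‖ ≤ 4 * (2 * 2 / (R / 2)) :=
        mul_le_mul h5 h2 (norm_nonneg _) (by norm_num)
    _ = 32 / R := by
        field_simp
        norm_num

lemma FF_eq (H : Loc g ζ R) {w z : ℂ} (hw : w ∈ ball ζ (R / 4)) (hz : conj w * z ≠ 1) :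
    FF g w z = (1 - g z * conj (g w)) / (1 - conj w * z) := by
  have hR := H.pos
  have hw2 : w ∈ ball ζ (R / 2) := ball_subset_ball (by linarith) hw
  have h1 := norm_ge (by have := H.le; linarith : R / 4 ≤ 1 / 2) H.unit hw
  have hcw : conj w ≠ 0 := by
    intro h
    have h2 : w = 0 := (map_eq_zero _).1 h
    rw [h2, norm_zero] at h1
    linarith
  have h2 := H.refl w hw2
  have hg0 : g (conj w)⁻¹ ≠ 0 := left_ne_zero_of_mul_eq_one h2
  have h3 : conj (g w) = (g (conj w)⁻¹)⁻¹ := eq_inv_of_mul_eq_one_right h2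
  have hne : z ≠ (conj w)⁻¹ := by
    rintro rfl
    exact hz (mul_inv_cancel₀ hcw)
  unfold FF
  rw [dslope_of_ne _ hne, slope_def_field, h3]
  have h4 : z - (conj w)⁻¹ ≠ 0 := sub_ne_zero.2 hne
  have h5 : 1 - conj w * z ≠ 0 := sub_ne_zero.2 (Ne.symm hz)
  have h6 : z - (conj w)⁻¹ = -(1 - conj w * z) / conj w := by
    field_simp
    ring
  rw [h6]
  generalize g (conj w)⁻¹ = G at *
  field_simp
  ring

end Pool.Agent.Y387.UQ
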