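import Pool.Agent.Y387.UQ.Main

/-!
The main inequality.
-/

set_option autoImplicit false

open Complex ComplexConjugate Metric Filter Topology Set

namespace Pool.Agent.Y387.UQ

variable {g : ℂ → ℂ} {ζ : ℂ} {R : ℝ}

lemma den_ne_one {a b : ℂ} (ha : ‖a‖ < 1) (hb : ‖b‖ < 1) : conj a * b ≠ 1 := by
  intro h
  have h1 : ‖conj a * b‖ = 1 := by rw [h, norm_one]
  rw [norm_mul, RCLike.norm_conj] at h1
  nlinarith [norm_nonneg a, norm_nonneg b]

/-- The quadratic form of the kernel of `g` is small. -/
lemma small_form (H : Loc g ζ R) (x : ℕ → ℂ) (hx : ∀ i, x i ∈ ball ζ (R / 36))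
    (hxD : ∀ i, ‖x i‖ < 1) (hinj : Function.Injective x) (m : ℕ) :
    ∃ t : ℕ → ℂ, t 0 = 1 ∧
      ‖∑ i ∈ Finset.range (m + 1), t i * g (x i)‖ ≤ 2 * (1 / 2) ^ m ∧
      ‖∑ k ∈ Finset.range (m + 1), ∑ i ∈ Finset.range (m + 1),
        (t k * (1 - conj (x 0) * x k)) * conj (t i * (1 - conj (x 0) * x i)) *
          ((1 - g (x k) * conj (g (x i))) / (1 - conj (x i) * x k))‖
        ≤ 16 * (32 / R) * (1 / 4) ^ m := by
  have hR := H.pos
  obtain ⟨t, ht0, ht⟩ := newton (ζ := ζ) (R := R / 4) (ρ := R / 36) (by positivity) (by linarith) x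
    hx hinj m
  have hq : 4 * (R / 36) / (R / 4 - R / 36) = 1 / 2 := by
    rw [div_eq_iff (by intro h; linarith)]
    ring
  rw [hq] at ht
  have hsub : ball ζ (R / 4) ⊆ ball ζ R := ball_subset_ball (by linarith)
  have hx4 : ∀ i, x i ∈ ball ζ (R / 4) := fun i => ball_subset_ball (by linarith) (hx i)
  set p : ℂ → ℂ := fun z => 1 - conj (x 0) * z with hp
  have hpd : Differentiable ℂ p := by
    intro z
    simp only [hp]
    fun_prop
  have hpb : ∀ z ∈ ball ζ (R / 4), ‖p z‖ ≤ 4 := by
    intro z hz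
    have h1 : ‖z‖ ≤ 3 / 2 := norm_le_two H.le H.unit (hsub hz)
    have h2 := norm_sub_le 1 (conj (x 0) * z)
    rw [norm_one, norm_mul, RCLike.norm_conj] at h2
    have h3 := hxD 0
    have h4 : ‖x 0‖ * ‖z‖ ≤ 1 * (3 / 2) := mul_le_mul h3.le h1 (norm_nonneg _) (by norm_num)
    simp only [hp]
    linarith
  -- first variable
  have step1 : ∀ w ∈ ball ζ (R / 4),
      ‖∑ i ∈ Finset.range (m + 1), t i * (p (x i) * FF g w (x i))‖ ≤ 4 * (32 / R) * (1 / 2) ^ m := by
    intro w hw
    apply ht (fun z => p z * FF g w z)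
    · exact hpd.differentiableOn.mul ((FF_diff H hw).mono hsub)
    · intro y hy
      rw [norm_mul]
      exact mul_le_mul (hpb y hy) (FF_bound H hw (hsub hy)) (norm_nonneg _) (by norm_num)
  set D : ℂ → ℂ := fun w => ∑ i ∈ Finset.range (m + 1), conj (t i * p (x i)) * FF g (x i) w with hD
  have hDd : DifferentiableOn ℂ D (ball ζ R) := by
    simp only [hD]
    apply DifferentiableOn.fun_sum
    intro i _
    exact (FF_diff H (hx4 i)).const_mul _
  have step2 : ∀ w ∈ ball ζ (R / 4), (∀ i ∈ Finset.range (m + 1), conj w * x i ≠ 1) →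
      ‖D w‖ ≤ 4 * (32 / R) * (1 / 2) ^ m := by
    intro w hw hne
    have h1 := step1 w hw
    rw [← RCLike.norm_conj] at h1
    have h2 : conj (∑ i ∈ Finset.range (m + 1), t i * (p (x i) * FF g w (x i))) = D w := by
      rw [map_sum]
      simp only [hD]
      apply Finset.sum_congr rfl
      intro i hi
      have h3 := hne i hi
      have h4 : conj (x i) * w ≠ 1 := by
        intro h
        apply h3
        have := congrArg conj h
        rwa [map_mul, Complex.conj_conj, map_one, mul_comm] at this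
      rw [FF_eq H hw h3, FF_eq H (hx4 i) h4]
      simp only [map_mul, map_div₀, map_sub, map_one, Complex.conj_conj]
      ring
    rwa [h2] at h1
  have step2' : ∀ w ∈ ball ζ (R / 4), ‖D w‖ ≤ 4 * (32 / R) * (1 / 2) ^ m := by
    intro w hw
    have hc : ContinuousAt D w := (hDd.differentiableAt (isOpen_ball.mem_nhds (hsub hw))).continuousAt
    have ht1 : Tendsto (fun y => ‖D y‖) (𝓝[≠] w) (𝓝 ‖D w‖) :=
      (hc.norm.tendsto).mono_left nhdsWithin_le_nhds
    apply le_of_tendsto ht1
    have hfin : (⋃ i ∈ Finset.range (m + 1), {y : ℂ | conj y * x i = 1}).Finite := by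
      apply Set.Finite.biUnion (Finset.finite_toSet _)
      intro i _
      apply Set.Finite.subset (Set.finite_singleton (conj (x i)⁻¹))
      intro y hy
      rw [Set.mem_ofPred_eq] at hy
      rw [Set.mem_singleton_iff]
      have h5 : conj y = (x i)⁻¹ := eq_inv_of_mul_eq_one_left hy
      have := congrArg conj h5
      rwa [Complex.conj_conj] at this
    have h6 : ∀ᶠ y in 𝓝[≠] w, y ∉ (⋃ i ∈ Finset.range (m + 1), {y : ℂ | conj y * x i = 1}) := by
      have h7 := (hfin.sdiff (t := {w})).isClosed.isOpen_compl.mem_nhds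
        (show w ∈ ((⋃ i ∈ Finset.range (m + 1), {y : ℂ | conj y * x i = 1}) \ {w})ᶜ from
          fun h => h.2 rfl)
      filter_upwards [nhdsWithin_le_nhds h7, self_mem_nhdsWithin] with y hy1 hy2 hy3
      exact hy1 ⟨hy3, hy2⟩
    have h8 : ∀ᶠ y in 𝓝[≠] w, y ∈ ball ζ (R / 4) := nhdsWithin_le_nhds (isOpen_ball.mem_nhds hw)
    filter_upwards [h6, h8] with y hy1 hy2
    apply step2 y hy2
    intro i hi h
    exact hy1 (Set.mem_biUnion hi h)
  have step3 := ht (fun w => p w * D w) (4 * (4 * (32 / R) * (1 / 2) ^ m))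
    (hpd.differentiableOn.mul (hDd.mono hsub)) (by
      intro y hy
      rw [norm_mul]
      exact mul_le_mul (hpb y hy) (step2' y hy) (norm_nonneg _) (by norm_num))
  refine ⟨t, ht0, ?_, ?_⟩
  · exact ht g 2 (H.diff.mono hsub) (fun y hy => H.hi y (hsub hy))
  · have e1 : ∑ k ∈ Finset.range (m + 1), ∑ i ∈ Finset.range (m + 1),
        (t k * (1 - conj (x 0) * x k)) * conj (t i * (1 - conj (x 0) * x i)) *
          ((1 - g (x k) * conj (g (x i))) / (1 - conj (x i) * x k))
        = ∑ k ∈ Finset.range (m + 1), t k * (p (x k) * D (x k)) := by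
      apply Finset.sum_congr rfl
      intro k _
      simp only [hD]
      rw [Finset.mul_sum, Finset.mul_sum]
      apply Finset.sum_congr rfl
      intro i _
      rw [FF_eq H (hx4 i) (den_ne_one (hxD i) (hxD k))]
      simp only [hp]
      ring
    rw [e1]
    refine step3.trans (le_of_eq ?_)
    have : (1 / 4 : ℝ) ^ m = (1 / 2) ^ m * (1 / 2) ^ m := by
      rw [← mul_pow]
      norm_num
    rw [this]
    ring

/-- The values of `h` and `g` agree at one more point. -/
lemma agree (H : Loc g ζ R) (x : ℕ → ℂ) (hx : ∀ i, x i ∈ ball ζ (R / 36))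
    (hxD : ∀ i, ‖x i‖ < 1) (hinj : Function.Injective x) {h : ℂ → ℂ}
    (hh : DifferentiableOn ℂ h (ball 0 1)) (hb : ∀ y ∈ ball (0:ℂ) 1, ‖h y‖ ≤ 1)
    (hgx : ∀ i, h (x (i + 1)) = g (x (i + 1))) : h (x 0) = g (x 0) := by
  have hR := H.pos
  set δ := g (x 0) - h (x 0) with hδ
  set P : ℝ := 1 - ‖x 0‖ ^ 2 with hP
  have hP0 : 0 < P := by
    have := hxD 0
    have := norm_nonneg (x 0)
    rw [hP]
    nlinarith
  have hP1 : P ≤ 1 := by
    rw [hP]
    nlinarith [norm_nonneg (x 0)]
  have hPc : (1 - conj (x 0) * x 0 : ℂ) = (P : ℂ) := by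
    rw [mul_comm, Complex.mul_conj, Complex.normSq_eq_norm_sq, hP]
    push_cast
    ring
  have key : ∀ m : ℕ, P * ‖δ‖ ^ 2 ≤ 16 * (32 / R) * (1 / 4) ^ m + 2 * (‖δ‖ * (2 * (1 / 2) ^ m)) := by
    intro m
    obtain ⟨t, ht0, ht1, ht2⟩ := small_form H x hx hxD hinj m
    set s := Finset.range (m + 1) with hs
    set τ : ℕ → ℂ := fun i => t i * (1 - conj (x 0) * x i) with hτ
    have h0s : (0 : ℕ) ∈ s := by rw [hs]; simp
    have hpick := Pool.Agent.Helper897.PickIneq.pick (s := s) (z := x) (fun i => conj (τ i))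
      (fun j _ => by simpa using hxD j) hh hb
    have hτ0 : τ 0 = (P : ℂ) := by
      simp only [hτ]
      rw [ht0, one_mul, hPc]
    have hval : ∀ j, h (x j) = g (x j) - (if j = 0 then δ else 0) := by
      intro j
      cases j with
      | zero => rw [if_pos rfl, hδ]; ring
      | succ j => rw [if_neg (Nat.succ_ne_zero j), hgx j, sub_zero]
    have hden : ∀ j k, (1 - conj (x k) * x j : ℂ) ≠ 0 := fun j k =>
      sub_ne_zero.2 (Ne.symm (den_ne_one (hxD k) (hxD j)))
    have hterm : ∀ j k, conj (conj (τ j)) * conj (τ k) *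
        ((1 - h (x j) * conj (h (x k))) / (1 - conj (x k) * x j))
        = τ j * conj (τ k) * ((1 - g (x j) * conj (g (x k))) / (1 - conj (x k) * x j))
          + (if k = 0 then τ j * conj (τ 0) * (conj δ * g (x j)) / (1 - conj (x 0) * x j) else 0)
          + (if j = 0 then τ 0 * conj (τ k) * (δ * conj (g (x k))) / (1 - conj (x k) * x 0) else 0)
          - (if k = 0 then (if j = 0 then τ 0 * conj (τ 0) * (δ * conj δ) / (1 - conj (x 0) * x 0)
              else 0) else 0) := by
      intro j k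
      rw [Complex.conj_conj, hval j, hval k]
      have hd := hden j k
      by_cases hj : j = 0 <;> by_cases hk : k = 0
      · subst hj; subst hk
        simp only [if_true]
        rw [map_sub]
        field_simp
        ring
      · subst hj
        simp only [if_true, if_neg hk, sub_zero, add_zero]
        field_simp
        ring
      · subst hk
        simp only [if_true, if_neg hj, sub_zero, add_zero]
        rw [map_sub]
        field_simp
        ring
      · simp only [if_neg hk, if_neg hj, sub_zero, add_zero]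
    have hsum : ∑ j ∈ s, ∑ k ∈ s, conj (conj (τ j)) * conj (τ k) *
        ((1 - h (x j) * conj (h (x k))) / (1 - conj (x k) * x j))
        = ∑ j ∈ s, ∑ k ∈ s, τ j * conj (τ k) *
            ((1 - g (x j) * conj (g (x k))) / (1 - conj (x k) * x j))
          + (P : ℂ) * (conj δ * ∑ j ∈ s, t j * g (x j))
          + (P : ℂ) * conj (conj δ * ∑ j ∈ s, t j * g (x j)) - (P : ℂ) * (δ * conj δ) := by
      simp_rw [hterm]
      simp_rw [Finset.sum_sub_distrib, Finset.sum_add_distrib]
      congr 1
      · congr 1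
        · congr 1
          simp_rw [Finset.sum_ite_eq' s 0, if_pos h0s]
          rw [Finset.mul_sum, Finset.mul_sum]
          apply Finset.sum_congr rfl
          intro j _
          rw [hτ0, Complex.conj_ofReal]
          simp only [hτ]
          have := hden j 0
          field_simp
        · rw [Finset.sum_comm]
          simp_rw [Finset.sum_ite_eq' s 0, if_pos h0s]
          rw [map_mul, Complex.conj_conj, map_sum, Finset.mul_sum, Finset.mul_sum]
          apply Finset.sum_congr rfl
          intro k _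
          rw [hτ0]
          simp only [hτ]
          rw [map_mul, map_mul, map_sub, map_one, map_mul, Complex.conj_conj]
          have := hden 0 k
          have h9 : (1 - x 0 * conj (x k) : ℂ) = 1 - conj (x k) * x 0 := by ring
          rw [h9]
          field_simp
      · simp_rw [Finset.sum_ite_eq' s 0, if_pos h0s, Finset.sum_ite_eq' s 0, if_pos h0s]
        rw [hτ0, Complex.conj_ofReal, hPc]
        have : (P : ℂ) ≠ 0 := by exact_mod_cast hP0.ne'
        field_simp
    rw [hsum] at hpick
    set Q := ∑ j ∈ s, ∑ k ∈ s, τ j * conj (τ k) *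
            ((1 - g (x j) * conj (g (x k))) / (1 - conj (x k) * x j)) with hQ
    set Y := conj δ * ∑ j ∈ s, t j * g (x j) with hY
    have hδδ : δ * conj δ = ((‖δ‖ ^ 2 : ℝ) : ℂ) := by
      rw [Complex.mul_conj, Complex.normSq_eq_norm_sq]
    rw [hδδ, Complex.sub_re, Complex.add_re, Complex.add_re, Complex.re_ofReal_mul,
      Complex.re_ofReal_mul, Complex.re_ofReal_mul, Complex.conj_re, Complex.ofReal_re] at hpick
    have hQn : Q.re ≤ 16 * (32 / R) * (1 / 4) ^ m := (Complex.re_le_norm _).trans ht2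
    have hYn : Y.re ≤ ‖δ‖ * (2 * (1 / 2) ^ m) := by
      refine (Complex.re_le_norm _).trans ?_
      rw [hY, norm_mul, RCLike.norm_conj]
      exact mul_le_mul_of_nonneg_left ht1 (norm_nonneg _)
    have hYn' : P * Y.re ≤ ‖δ‖ * (2 * (1 / 2) ^ m) := by
      by_cases hY0 : 0 ≤ Y.re
      · calc P * Y.re ≤ 1 * Y.re := mul_le_mul_of_nonneg_right hP1 hY0
          _ ≤ _ := by rw [one_mul]; exact hYn
      · have : P * Y.re ≤ 0 := mul_nonpos_of_nonneg_of_nonpos hP0.le (not_le.1 hY0).le
        exact this.trans (by positivity)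
    linarith
  have hlim : Tendsto (fun m : ℕ => 16 * (32 / R) * (1 / 4 : ℝ) ^ m + 2 * (‖δ‖ * (2 * (1 / 2) ^ m)))
      atTop (𝓝 (16 * (32 / R) * 0 + 2 * (‖δ‖ * (2 * 0)))) := by
    apply Tendsto.add
    · apply Tendsto.const_mul
      exact tendsto_pow_atTop_nhds_zero_of_lt_one (by norm_num) (by norm_num)
    · apply Tendsto.const_mul
      apply Tendsto.const_mul
      apply Tendsto.const_mul
      exact tendsto_pow_atTop_nhds_zero_of_lt_one (by norm_num) (by norm_num)
  have h1 := ge_of_tendsto' hlim key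
  have h2 : ‖δ‖ ^ 2 ≤ 0 := by
    by_contra hcon
    push Not at hcon
    have : 0 < P * ‖δ‖ ^ 2 := mul_pos hP0 hcon
    simp only [mul_zero, add_zero] at h1
    linarith
  have h3 : ‖δ‖ = 0 := by
    have := norm_nonneg δ
    nlinarith
  have h4 := norm_eq_zero.1 h3
  rw [hδ, sub_eq_zero] at h4
  exact h4.symm

end Pool.Agent.Y387.UQ
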